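import Pool.Agent.Helper62.DSH.StA

set_option autoImplicit false

open Set Filter Topology MeasureTheory
open Helper62.LH Helper62.DSH
open scoped ContDiff ENNReal

noncomputable section

namespace Pool.Agent.Helper24.DSH

/-! ### linear maps -/

private def rhoL {n j : ℕ} (A : Fin n → Fin n → ℝ) : Tn n j →ₗ[ℝ] Tn n j where
  toFun := rho A
  map_add' s t := by
    funext I
    simp only [rho, Pi.add_apply, mul_add, Finset.sum_add_distrib]
  map_smul' c t := by
    funext I
    simp only [rho, Pi.smul_apply, smul_eq_mul, RingHom.id_apply, Finset.mul_sum]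
    refine Finset.sum_congr rfl fun k _ => Finset.sum_congr rfl fun l _ => ?_
    ring

private def ctL {n j : ℕ} (a : Fin n) : Tn n (j + 1) →ₗ[ℝ] Tn n j where
  toFun := ct a
  map_add' _ _ := rfl
  map_smul' _ _ := rfl

private def wdL {n j : ℕ} : (Fin n → Tn n j) →ₗ[ℝ] Tn n (j + 1) where
  toFun := wd
  map_add' s t := by
    funext J
    simp only [wd, Pi.add_apply, mul_add, Finset.sum_add_distrib]
  map_smul' c t := by
    funext J
    simp only [wd, Pi.smul_apply, smul_eq_mul, RingHom.id_apply, Finset.mul_sum]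
    refine Finset.sum_congr rfl fun k _ => ?_
    ring

private lemma rhoL_apply {n j : ℕ} (A : Fin n → Fin n → ℝ) (t : Tn n j) :
    rhoL A t = rho A t := rfl
private lemma ctL_apply {n j : ℕ} (a : Fin n) (t : Tn n (j + 1)) : ctL a t = ct a t := rfl
private lemma wdL_apply {n j : ℕ} (p : Fin n → Tn n j) : wdL p = wd p := rfl

/-! ### alternating tensors -/

private lemma altn_add {n j : ℕ} {s t : Tn n j} (hs : Altn s) (ht : Altn t) : Altn (s + t) := by
  intro I σ
  rw [Pi.add_apply, Pi.add_apply, hs I σ, ht I σ]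
  ring

private lemma altn_smul {n j : ℕ} {t : Tn n j} (c : ℝ) (ht : Altn t) : Altn (c • t) := by
  intro I σ
  rw [Pi.smul_apply, Pi.smul_apply, ht I σ, smul_eq_mul, smul_eq_mul]
  ring

private lemma altn_sub {n j : ℕ} {s t : Tn n j} (hs : Altn s) (ht : Altn t) : Altn (s - t) := by
  intro I σ
  rw [Pi.sub_apply, Pi.sub_apply, hs I σ, ht I σ]
  ring

private lemma altn_zero {n j : ℕ} : Altn (0 : Tn n j) := by
  intro I σ
  simp

private lemma altn_sum {n j : ℕ} {ι : Type} (s : Finset ι) (t : ι → Tn n j)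
    (h : ∀ i ∈ s, Altn (t i)) : Altn (∑ i ∈ s, t i) := by
  classical
  induction s using Finset.induction_on with
  | empty => rw [Finset.sum_empty]; exact altn_zero
  | insert a s ha ih =>
    rw [Finset.sum_insert ha]
    exact altn_add (h a (Finset.mem_insert_self a s))
      (ih fun i hi => h i (Finset.mem_insert_of_mem hi))

private lemma altn_ct {n j : ℕ} {t : Tn n (j + 1)} (ht : Altn t) (a : Fin n) :
    Altn (ct a t) := by
  intro K σ
  obtain ⟨τ, hτ⟩ : ∃ τ : Equiv.Perm (Fin (j + 1)), τ = Equiv.Perm.decomposeFin.symm (0, σ) :=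
    ⟨_, rfl⟩
  have h1 : (Fin.cons a (K ∘ σ) : Fin (j + 1) → Fin n) = (Fin.cons a K : Fin (j + 1) → Fin n) ∘ τ := by
    funext i
    refine Fin.cases ?_ (fun i => ?_) i
    · rw [Function.comp_apply, hτ, Equiv.Perm.decomposeFin_symm_apply_zero]
      rfl
    · rw [Function.comp_apply, hτ, Equiv.Perm.decomposeFin_symm_apply_succ, Equiv.swap_self,
        Equiv.refl_apply, Fin.cons_succ, Fin.cons_succ, Function.comp_apply]
  have h2 : Equiv.Perm.sign τ = Equiv.Perm.sign σ := by
    rw [hτ, Equiv.Perm.decomposeFin.symm_sign, if_pos rfl, one_mul]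
  show t (Fin.cons a (K ∘ σ)) = _ * t (Fin.cons a K)
  rw [h1, ht, h2]

/-! ### derivatives -/

private lemma fd_comp {n j : ℕ} {u : E n → Tn n j} (hu : ContDiff ℝ ∞ u) (x v : E n)
    (I : Fin j → Fin n) : fderiv ℝ u x v I = fderiv ℝ (fun y => u y I) x v := by
  have h1 : HasFDerivAt u (fderiv ℝ u x) x := (hu.differentiable (by simp) x).hasFDerivAt
  have h2 := (hasFDerivAt_pi'.1 h1) I
  rw [h2.fderiv]
  rfl

private lemma altn_fd {n j : ℕ} {u : E n → Tn n j} (hu : ContDiff ℝ ∞ u) (ha : Al u)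
    (x v : E n) : Altn (fderiv ℝ u x v) := by
  intro I σ
  rw [fd_comp hu, fd_comp hu]
  have h1 : (fun y => u y (I ∘ σ)) = fun y => ((Equiv.Perm.sign σ : ℤ) : ℝ) * u y I := by
    funext y
    exact ha y I σ
  have h2 : DifferentiableAt ℝ (fun y => u y I) x :=
    ((contDiff_pi.1 hu) I).differentiable (by simp) x
  rw [h1, fderiv_const_mul h2]
  rfl

private lemma sm_cv {n j : ℕ} {g : E n → Bl n} {Γ : E n → Bm n} {F : Fin n → E n → E n}
    {G : E n → Fin n → Fin n → Fin n → ℝ} (hF : Frm g Γ F G) {u : E n → Tn n j}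
    (hu : ContDiff ℝ ∞ u) (a : Fin n) : ContDiff ℝ ∞ (fun x => cv F G u x a) := by
  have h1 : ContDiff ℝ ∞ (fun x => fderiv ℝ u x (F a x)) :=
    (hu.fderiv_right (m := ∞) (by simp)).clm_apply (hF.smF a)
  have h2 : ContDiff ℝ ∞ (fun x => rho (G x a) (u x)) := by
    rw [contDiff_pi]
    intro I
    refine ContDiff.sum fun k _ => ContDiff.sum fun l _ => ?_
    exact (hF.smG a (I k) l).mul ((contDiff_pi.1 hu) (Function.update I k l))
  exact h1.sub h2

private lemma sm_ct {n j : ℕ} {u : E n → Tn n (j + 1)} (hu : ContDiff ℝ ∞ u) (a : Fin n) :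
    ContDiff ℝ ∞ (fun x => ct a (u x)) := by
  rw [contDiff_pi]
  intro K
  exact (contDiff_pi.1 hu) (Fin.cons a K)

private lemma cv_sum {n j : ℕ} (F : Fin n → E n → E n) (G : E n → Fin n → Fin n → Fin n → ℝ)
    (M : ℕ) (c : Fin M → ℝ) (u : Fin M → E n → Tn n j) (hu : ∀ i, ContDiff ℝ ∞ (u i)) (x : E n)
    (a : Fin n) :
    cv F G (fun y => ∑ i, c i • u i y) x a = ∑ i, c i • cv F G (u i) x a := by
  have h0 : ∀ i, DifferentiableAt ℝ (u i) x := fun i => (hu i).differentiable (by simp) x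
  have h1 : HasFDerivAt (fun y => ∑ i, c i • u i y) (∑ i, c i • fderiv ℝ (u i) x) x :=
    HasFDerivAt.fun_sum fun i _ => (h0 i).hasFDerivAt.const_smul (c i)
  unfold cv
  rw [h1.fderiv, _root_.sum_apply, ← rhoL_apply, map_sum, ← Finset.sum_sub_distrib]
  refine Finset.sum_congr rfl fun i _ => ?_
  rw [map_smul, rhoL_apply, smul_sub]
  rfl

private lemma wd_sum {n j : ℕ} (M : ℕ) (c : Fin M → ℝ) (p : Fin M → Fin n → Tn n j) :
    wd (fun a => ∑ i, c i • p i a) = ∑ i, c i • wd (p i) := by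
  have h1 : (fun a => ∑ i, c i • p i a) = ∑ i, c i • p i := by
    funext a
    rw [Finset.sum_apply]
    rfl
  rw [h1, ← wdL_apply, map_sum]
  refine Finset.sum_congr rfl fun i _ => ?_
  rw [map_smul, wdL_apply]

theorem hDer (hRho : TRho) (hSqd : TSqd) : TDer := by
  intro n j g Γ F G hF
  refine ⟨?_, ?_, ?_, ?_, ?_, ?_, ?_, ?_⟩
  · intro u hu
    refine ⟨fun a => sm_cv hF hu a, ?_⟩
    rw [contDiff_pi]
    intro J
    have h1 : (fun x => dF F G u x J) = fun x => ∑ c : Fin (j + 1),
        (-1 : ℝ) ^ (c : ℕ) * cv F G u x (J c) (fun i => J (c.succAbove i)) := rfl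
    rw [h1]
    refine ContDiff.sum fun c _ => ?_
    exact contDiff_const.mul ((contDiff_pi.1 (sm_cv hF hu (J c))) (fun i => J (c.succAbove i)))
  · intro f u hf hu
    have h0 : dlF F G f u = fun x => ∑ a, (ct a (cv F G u x a) -
        fderiv ℝ f x (F a x) • ct a (u x)) := rfl
    rw [h0]
    refine ContDiff.sum fun a _ => ?_
    refine (sm_ct (sm_cv hF hu a) a).sub ?_
    have h1 : ContDiff ℝ ∞ (fun x => fderiv ℝ f x (F a x)) :=
      (hf.fderiv_right (m := ∞) (by simp)).clm_apply (hF.smF a)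
    exact h1.smul (sm_ct hu a)
  · intro u hu ha
    have h1 : ∀ x a, Altn (cv F G u x a) := fun x a =>
      altn_sub (altn_fd hu ha x _) ((hRho n j (G x a) (G x a)).2.2.1 _ (ha x))
    exact ⟨h1, fun x => (hSqd n).1 j _ (h1 x)⟩
  · intro t ht a
    exact altn_ct ht a
  · intro f u hu ha x
    refine altn_sum _ _ fun a _ => altn_sub (altn_ct ?_ a) (altn_smul _ (altn_ct (ha x) a))
    exact altn_sub (altn_fd hu ha x _) ((hRho n (j + 1) (G x a) (G x a)).2.2.1 _ (ha x))
  · intro M c u hu x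
    have h1 := cv_sum F G M c u hu x
    refine ⟨h1, ?_⟩
    have h2 : cv F G (fun y => ∑ i, c i • u i y) x = fun a => ∑ i, c i • cv F G (u i) x a :=
      funext h1
    unfold dF
    rw [h2, wd_sum]
  · intro f M c u hu x
    unfold dlF
    simp only [cv_sum F G M c u hu x]
    have h3 : ∀ a : Fin n, ct a (∑ i, c i • cv F G (u i) x a) -
        fderiv ℝ f x (F a x) • ct a (∑ i, c i • u i x) =
        ∑ i, c i • (ct a (cv F G (u i) x a) - fderiv ℝ f x (F a x) • ct a (u i x)) := by
      intro a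
      rw [← ctL_apply, ← ctL_apply, map_sum, map_sum, Finset.smul_sum, ← Finset.sum_sub_distrib]
      refine Finset.sum_congr rfl fun i _ => ?_
      rw [map_smul, map_smul, smul_sub, smul_comm (fderiv ℝ f x (F a x)) (c i)]
      rfl
    rw [Finset.sum_congr rfl fun a _ => h3 a, Finset.sum_comm]
    refine Finset.sum_congr rfl fun i _ => ?_
    rw [Finset.smul_sum]
  · intro u x hx
    have h0 : u x = 0 := image_eq_zero_of_notMem_tsupport hx
    have h1 : fderiv ℝ u x = 0 := by
      have h2 : u =ᶠ[𝓝 x] fun _ => (0 : Tn n j) := notMem_tsupport_iff_eventuallyEq.1 hx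
      rw [h2.fderiv_eq]
      simp
    have h2 : ∀ a, cv F G u x a = 0 := by
      intro a
      unfold cv
      rw [h1, h0, ← rhoL_apply, map_zero]
      simp
    refine ⟨h0, h2, ?_⟩
    unfold dF
    rw [show cv F G u x = 0 from funext h2, ← wdL_apply, map_zero]

end Pool.Agent.Helper24.DSH
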